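import Pool.Agent.X19.LPB.Main

/-!
# For non-even `p` the space `ℓ_p` has no smooth blid map

Let `1 ≤ p < ∞` be not an even integer. We show that there is no bounded map `H : ℓ_p → ℓ_p` of class
`C^(⌊p⌋ + 2)` which is the identity near `0`. In particular `ℓ_p` admits no `C^∞` blid map.

The proof. Let `𝒰` be a free ultrafilter on `ℕ` and let `λ(T) = lim_𝒰 (T e_n)_n` for an operator `T`
of `ℓ_p`.
* For a scalar function `φ` of class `C^(⌊p⌋ + 1)` and `1 ≤ j < p` one has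
  `lim_𝒰 D^j φ(x)(e_n, …, e_n) = 0`: otherwise (for the least such `j`) `φ` increases by `≥ c t^j` with
  each of about `(r / t)^p` successive steps `t e_n` inside a ball of radius `r`, and is unbounded.
  So `|φ(x + t (e_n - e_m)) - φ(x)| = O(t^(⌊p⌋ + 1))` when `n` and then `m` go to infinity along `𝒰`,
  with constants depending only on a local bound of the derivative of order `⌊p⌋ + 1` (if `p` is an
  odd integer the terms of order `p` cancel).
* The function `g(x) = λ(H'(x))` is of this class, and `g(0) = 1`. By a variational principle of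
  Borwein–Preiss type, `‖H(x)‖^p + K min(|g(x)|, 1) - ∑ ε 2^(-k-1) ‖x - x_k‖^p` attains its maximum at
  some `z`, and `|g(z)| ≥ 1 / 2` for large `K`.
* For `y = z + t (e_n - e_m)` the `m`-th coordinate of `H(y)` is about `- t g(z)`, while the norm of the
  other coordinates (by the above for the functions `y* ∘ H`) and `g` only change by `O(t^(⌊p⌋ + 1))`.
  So `‖H(y)‖^p ≥ ‖H(z)‖^p + c t^p`, which contradicts the maximality of `z` for small `t`.
-/

set_option autoImplicit false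

open Filter Topology
open scoped ENNReal ContDiff

namespace Pool.Agent.Results.MP_94b2f9_an.NoBlidMap

/-- `H` is a `C^q` blid map on the Banach space `X`: a `C^q` map from `X` to `X`, bounded, and equal
to the identity on a neighbourhood of `0`. -/
def IsBlidMap {X : Type} [NormedAddCommGroup X] [NormedSpace ℝ X] (q : WithTop ℕ∞) (H : X → X) :
    Prop :=
  ContDiff ℝ q H ∧ (∃ C : ℝ, ∀ x, ‖H x‖ ≤ C) ∧ ∃ V ∈ 𝓝 (0 : X), ∀ x ∈ V, H x = x

/-- **Main result.** Let `1 ≤ p < ∞` be not an even integer. Then the real space `ℓ_p` admits no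
`C^∞` blid map, and in fact it admits no `C^q` blid map for any `q ≥ ⌊p⌋ + 2`. -/
theorem result (p : ℝ≥0∞) [Fact (1 ≤ p)] (hp : p ≠ ⊤) (hpe : ∀ n : ℕ, p ≠ 2 * n) :
    (¬ ∃ H : lp (fun _ : ℕ => ℝ) p → lp (fun _ : ℕ => ℝ) p, IsBlidMap ∞ H) ∧
    (∀ q : WithTop ℕ∞, ((⌊p.toReal⌋₊ + 2 : ℕ) : WithTop ℕ∞) ≤ q →
      ¬ ∃ H : lp (fun _ : ℕ => ℝ) p → lp (fun _ : ℕ => ℝ) p, IsBlidMap q H) := by
  have key : ∀ q : WithTop ℕ∞, ((⌊p.toReal⌋₊ + 2 : ℕ) : WithTop ℕ∞) ≤ q →
      ¬ ∃ H : lp (fun _ : ℕ => ℝ) p → lp (fun _ : ℕ => ℝ) p, IsBlidMap q H := by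
    rintro q hq ⟨H, hH, ⟨C, hC⟩, V, hV, hVH⟩
    refine X19.LPB.no_blid hp ?_ _ rfl H (hH.of_le hq) C hC (Filter.mem_of_superset hV hVH)
    intro n hn
    apply hpe n
    rw [← ENNReal.ofReal_toReal hp, hn]
    rw [ENNReal.ofReal_mul (by norm_num), ENNReal.ofReal_natCast]
    norm_num
  exact ⟨key ∞ (WithTop.coe_le_coe.2 (le_top : ((⌊p.toReal⌋₊ + 2 : ℕ) : ℕ∞) ≤ ⊤)), key⟩

end Pool.Agent.Results.MP_94b2f9_an.NoBlidMap
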